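import Pool.Agent.Helper7.Koenig

/-!
# Balanced colourings

Elements `e : E` have a start `st e : V` and an end `en e : V`.  At each `v` a set `R v` of elements
starting at `v` (empty or of size `k`) and a set `R' v` of elements ending at `v` (empty or of size `k`)
are to be rainbow; the other elements starting at `v` and ending at `v` are equally many and shall be
coloured alike.
-/

namespace Pool.Agent.Helper7

open Finset

/-- Two finite families over `V` with equal fibre sizes are equivalent over `V`. -/
theorem exists_fiber_equiv {X Y V : Type*} [Fintype X] [Fintype Y] [DecidableEq V]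
    (f : X → V) (g : Y → V)
    (h : ∀ v, Fintype.card {x // f x = v} = Fintype.card {y // g y = v}) :
    ∃ θ : X ≃ Y, ∀ x, g (θ x) = f x := by
  classical
  have e : ∀ v, {x // f x = v} ≃ {y // g y = v} := fun v => Fintype.equivOfCardEq (h v)
  refine ⟨(Equiv.sigmaFiberEquiv f).symm.trans
    ((Equiv.sigmaCongrRight e).trans (Equiv.sigmaFiberEquiv g)), ?_⟩
  intro x
  simp only [Equiv.trans_apply, Equiv.sigmaFiberEquiv, Equiv.coe_fn_symm_mk, Equiv.coe_fn_mk,
    Equiv.sigmaCongrRight_apply]
  exact (e (f x) ⟨x, rfl⟩).2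

theorem exists_balanced {E V : Type*} [Fintype E] [DecidableEq E] [Fintype V] [DecidableEq V]
    (st en : E → V) (R R' : V → Finset E) (k : ℕ)
    (hR : ∀ v, ∀ e ∈ R v, st e = v) (hR' : ∀ v, ∀ e ∈ R' v, en e = v)
    (cR : ∀ v, R v = ∅ ∨ (R v).card = k + 1) (cR' : ∀ v, R' v = ∅ ∨ (R' v).card = k + 1)
    (hc : ∀ v, (univ.filter (fun e => st e = v ∧ e ∉ R v)).card
      = (univ.filter (fun e => en e = v ∧ e ∉ R' v)).card) :
    ∃ c : E → ℕ, (∀ e, c e < k + 1) ∧
      (∀ v, ∀ e ∈ R v, ∀ e' ∈ R v, c e = c e' → e = e') ∧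
      (∀ v, ∀ e ∈ R' v, ∀ e' ∈ R' v, c e = c e' → e = e') ∧
      (∀ v i, (univ.filter (fun e => (st e = v ∧ e ∉ R v) ∧ c e = i)).card
        = (univ.filter (fun e => (en e = v ∧ e ∉ R' v) ∧ c e = i)).card) := by
  classical
  -- unpaired starts and ends
  have hfib : ∀ v, Fintype.card {x : {e : E // e ∉ R (st e)} // st x.1 = v} = Fintype.card {y : {e : E // e ∉ R' (en e)} // en y.1 = v} := by
    intro v
    have h1 : Fintype.card {x : {e : E // e ∉ R (st e)} // st x.1 = v}
        = (univ.filter (fun e => st e = v ∧ e ∉ R v)).card := by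
      rw [← Fintype.card_coe]
      refine Fintype.card_congr ⟨fun x => ⟨x.1.1, ?_⟩, fun x => ⟨⟨x.1, ?_⟩, ?_⟩, ?_, ?_⟩
      · simp only [mem_filter, mem_univ, true_and]
        refine ⟨x.2, ?_⟩
        have := x.1.2
        rw [x.2] at this
        exact this
      · have := x.2
        simp only [mem_filter, mem_univ, true_and] at this
        rw [this.1]
        exact this.2
      · have := x.2
        simp only [mem_filter, mem_univ, true_and] at this
        exact this.1
      · intro x; rfl
      · intro x; rfl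
    have h2 : Fintype.card {y : {e : E // e ∉ R' (en e)} // en y.1 = v}
        = (univ.filter (fun e => en e = v ∧ e ∉ R' v)).card := by
      rw [← Fintype.card_coe]
      refine Fintype.card_congr ⟨fun x => ⟨x.1.1, ?_⟩, fun x => ⟨⟨x.1, ?_⟩, ?_⟩, ?_, ?_⟩
      · simp only [mem_filter, mem_univ, true_and]
        refine ⟨x.2, ?_⟩
        have := x.1.2
        rw [x.2] at this
        exact this
      · have := x.2
        simp only [mem_filter, mem_univ, true_and] at this
        rw [this.1]
        exact this.2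
      · have := x.2
        simp only [mem_filter, mem_univ, true_and] at this
        exact this.1
      · intro x; rfl
      · intro x; rfl
    rw [h1, h2, hc]
  obtain ⟨θ, hθ⟩ := exists_fiber_equiv (fun x : {e : E // e ∉ R (st e)} => st x.1) (fun y : {e : E // e ∉ R' (en e)} => en y.1) hfib
  -- the bipartite multigraph
  let a : E ⊕ ({e : E // e ∉ R (st e)} × Fin k) → {v : V // (R v).Nonempty} ⊕ {e : E // e ∉ R (st e)} := fun x => match x with
    | Sum.inl e => if h : e ∈ R (st e) then Sum.inl ⟨st e, ⟨e, h⟩⟩ else Sum.inr ⟨e, h⟩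
    | Sum.inr (e, _) => Sum.inr e
  let b : E ⊕ ({e : E // e ∉ R (st e)} × Fin k) → {v : V // (R' v).Nonempty} ⊕ {e : E // e ∉ R (st e)} := fun x => match x with
    | Sum.inl e => if h : e ∈ R' (en e) then Sum.inl ⟨en e, ⟨e, h⟩⟩ else Sum.inr (θ.symm ⟨e, h⟩)
    | Sum.inr (e, _) => Sum.inr e
  have a1 : ∀ (v : {v : V // (R v).Nonempty}) x, a x = Sum.inl v ↔ ∃ e ∈ R v.1, x = Sum.inl e := by
    rintro ⟨v, hv⟩ (e | ⟨e, j⟩)
    · simp only [a]
      by_cases h : e ∈ R (st e)
      · simp only [h, dif_pos, Sum.inl.injEq, Subtype.ext_iff]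
        constructor
        · intro h1
          exact ⟨e, h1 ▸ h, rfl⟩
        · rintro ⟨e', h1, h2⟩
          subst h2
          exact hR v _ h1
      · simp only [h, dif_neg, not_false_eq_true, false_iff, not_exists, not_and, reduceCtorEq]
        rintro e' h1 h2
        simp only [Sum.inl.injEq] at h2
        subst h2
        rw [hR v _ h1] at h
        exact h h1
    · simp [a]
  have a2 : ∀ (p : {e : E // e ∉ R (st e)}) x, a x = Sum.inr p ↔ x = Sum.inl p.1 ∨ ∃ j, x = Sum.inr (p, j) := by
    rintro ⟨p, hp⟩ (e | ⟨e, j⟩)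
    · simp only [a]
      by_cases h : e ∈ R (st e)
      · simp only [h, dif_pos, reduceCtorEq, Sum.inl.injEq, exists_false, or_false, false_iff]
        rintro rfl
        exact hp h
      · simp [h]
    · simp [a, eq_comm]
  have b1 : ∀ (v : {v : V // (R' v).Nonempty}) x,
      b x = Sum.inl v ↔ ∃ e ∈ R' v.1, x = Sum.inl e := by
    rintro ⟨v, hv⟩ (e | ⟨e, j⟩)
    · simp only [b]
      by_cases h : e ∈ R' (en e)
      · simp only [h, dif_pos, Sum.inl.injEq, Subtype.ext_iff]
        constructor
        · intro h1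
          exact ⟨e, h1 ▸ h, rfl⟩
        · rintro ⟨e', h1, h2⟩
          subst h2
          exact hR' v _ h1
      · simp only [h, dif_neg, not_false_eq_true, false_iff, not_exists, not_and, reduceCtorEq]
        rintro e' h1 h2
        simp only [Sum.inl.injEq] at h2
        subst h2
        rw [hR' v _ h1] at h
        exact h h1
    · simp [b]
  have b2 : ∀ (p : {e : E // e ∉ R (st e)}) x, b x = Sum.inr p ↔ x = Sum.inl (θ p).1 ∨ ∃ j, x = Sum.inr (p, j) := by
    rintro p (e | ⟨e, j⟩)
    · simp only [b]
      by_cases h : e ∈ R' (en e)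
      · simp only [h, dif_pos, reduceCtorEq, Sum.inl.injEq, exists_false, or_false, false_iff]
        rintro rfl
        exact (θ p).2 h
      · simp only [h, dif_neg, not_false_eq_true, Sum.inr.injEq, Sum.inl.injEq, reduceCtorEq,
          exists_false, or_false, Equiv.symm_apply_eq]
        constructor
        · intro h1
          rw [← h1]
        · intro h1
          exact Subtype.ext h1
    · simp [b, eq_comm]
  have cardpair : ∀ (p : {e : E // e ∉ R (st e)}) (z : E),
      (univ.filter (fun x : E ⊕ ({e : E // e ∉ R (st e)} × Fin k) => x = Sum.inl z ∨ ∃ j, x = Sum.inr (p, j))).card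
        = k + 1 := by
    intro p z
    have : univ.filter (fun x : E ⊕ ({e : E // e ∉ R (st e)} × Fin k) => x = Sum.inl z ∨ ∃ j, x = Sum.inr (p, j))
        = insert (Sum.inl z) ((univ : Finset (Fin k)).image (fun j => Sum.inr (p, j))) := by
      ext x
      simp [eq_comm]
    rw [this, Finset.card_insert_of_notMem (by simp), Finset.card_image_of_injective]
    · simp
    · intro i j hij
      simpa using hij
  have ha : ∀ x, ((univ : Finset (E ⊕ ({e : E // e ∉ R (st e)} × Fin k))).filter (fun e => a e = x)).card = k + 1 := by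
    rintro (v | p)
    · have : (univ : Finset (E ⊕ ({e : E // e ∉ R (st e)} × Fin k))).filter (fun e => a e = Sum.inl v)
          = (R v.1).image Sum.inl := by
        ext x
        simp only [mem_filter, mem_univ, true_and, a1, mem_image]
        constructor
        · rintro ⟨e, h1, h2⟩; exact ⟨e, h1, h2.symm⟩
        · rintro ⟨e, h1, h2⟩; exact ⟨e, h1, h2.symm⟩
      rw [this, Finset.card_image_of_injective _ Sum.inl_injective]
      rcases cR v.1 with h | h
      · exact absurd v.2 (by simp [h])
      · exact h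
    · simp only [a2]
      exact cardpair p p.1
  have hb : ∀ x, ((univ : Finset (E ⊕ ({e : E // e ∉ R (st e)} × Fin k))).filter (fun e => b e = x)).card = k + 1 := by
    rintro (v | p)
    · have : (univ : Finset (E ⊕ ({e : E // e ∉ R (st e)} × Fin k))).filter (fun e => b e = Sum.inl v)
          = (R' v.1).image Sum.inl := by
        ext x
        simp only [mem_filter, mem_univ, true_and, b1, mem_image]
        constructor
        · rintro ⟨e, h1, h2⟩; exact ⟨e, h1, h2.symm⟩
        · rintro ⟨e, h1, h2⟩; exact ⟨e, h1, h2.symm⟩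
      rw [this, Finset.card_image_of_injective _ Sum.inl_injective]
      rcases cR' v.1 with h | h
      · exact absurd v.2 (by simp [h])
      · exact h
    · simp only [b2]
      exact cardpair p (θ p).1
  obtain ⟨c, hc1, hc2, hc3⟩ := koenig a b (k + 1) univ ha hb
  -- paired elements have the same colour
  have same : ∀ p : {e : E // e ∉ R (st e)}, c (Sum.inl p.1) = c (Sum.inl (θ p).1) := by
    intro p
    by_contra hne
    -- the k+2 ... elements: colours of dummies avoid both
    have inj : Function.Injective (fun j : Fin k => c (Sum.inr (p, j))) := by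
      intro i j hij
      have := hc2 (Sum.inr (p, i)) (mem_univ _) (Sum.inr (p, j)) (mem_univ _) (by simp [a]) hij
      simpa using this
    let T : Finset ℕ := (univ : Finset (Fin k)).image (fun j => c (Sum.inr (p, j)))
    have hT : T.card = k := by
      rw [Finset.card_image_of_injective _ inj]; simp
    have n1 : c (Sum.inl p.1) ∉ T := by
      intro h
      simp only [T, mem_image, mem_univ, true_and] at h
      obtain ⟨j, hj⟩ := h
      have e1 : a (Sum.inr (p, j)) = a (Sum.inl p.1) := by
        rw [(a2 p (Sum.inl p.1)).2 (Or.inl rfl)]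
      have := hc2 (Sum.inr (p, j)) (mem_univ _) (Sum.inl p.1) (mem_univ _) e1 hj
      simp at this
    have n2 : c (Sum.inl (θ p).1) ∉ T := by
      intro h
      simp only [T, mem_image, mem_univ, true_and] at h
      obtain ⟨j, hj⟩ := h
      have e1 : b (Sum.inr (p, j)) = b (Sum.inl (θ p).1) := by
        rw [(b2 p (Sum.inl (θ p).1)).2 (Or.inl rfl)]
      have := hc3 (Sum.inr (p, j)) (mem_univ _) (Sum.inl (θ p).1) (mem_univ _) e1 hj
      simp at this
    have hsub : insert (c (Sum.inl p.1)) (insert (c (Sum.inl (θ p).1)) T) ⊆ Finset.range (k + 1) := by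
      intro x hx
      simp only [mem_insert, T, mem_image, mem_univ, true_and] at hx
      rw [Finset.mem_range]
      rcases hx with rfl | rfl | ⟨j, rfl⟩ <;> exact hc1 _ (mem_univ _)
    have := Finset.card_le_card hsub
    rw [Finset.card_insert_of_notMem, Finset.card_insert_of_notMem n2, hT, Finset.card_range] at this
    · omega
    · simp only [mem_insert, not_or]
      exact ⟨hne, n1⟩
  refine ⟨fun e => c (Sum.inl e), fun e => hc1 _ (mem_univ _), ?_, ?_, ?_⟩
  · intro v e he e' he' h
    have h1 : a (Sum.inl e) = a (Sum.inl e') := by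
      rw [(a1 ⟨v, ⟨e, he⟩⟩ (Sum.inl e)).2 ⟨e, he, rfl⟩, (a1 ⟨v, ⟨e, he⟩⟩ (Sum.inl e')).2 ⟨e', he', rfl⟩]
    exact Sum.inl_injective (hc2 _ (mem_univ _) _ (mem_univ _) h1 h)
  · intro v e he e' he' h
    have h1 : b (Sum.inl e) = b (Sum.inl e') := by
      rw [(b1 ⟨v, ⟨e, he⟩⟩ (Sum.inl e)).2 ⟨e, he, rfl⟩, (b1 ⟨v, ⟨e, he⟩⟩ (Sum.inl e')).2 ⟨e', he', rfl⟩]
    exact Sum.inl_injective (hc3 _ (mem_univ _) _ (mem_univ _) h1 h)
  · intro v i
    refine Finset.card_bij' (fun e he => (θ ⟨e, ?_⟩).1) (fun e he => (θ.symm ⟨e, ?_⟩).1) ?_ ?_ ?_ ?_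
    · simp only [mem_filter, mem_univ, true_and] at he
      rw [he.1.1]; exact he.1.2
    · simp only [mem_filter, mem_univ, true_and] at he
      rw [he.1.1]; exact he.1.2
    · intro e he
      simp only [mem_filter, mem_univ, true_and] at he ⊢
      have hmem : e ∉ R (st e) := by rw [he.1.1]; exact he.1.2
      have h1 := hθ ⟨e, hmem⟩
      have h2 := (θ ⟨e, hmem⟩).2
      have h3 := same ⟨e, hmem⟩
      simp only at h1
      refine ⟨⟨h1.trans he.1.1, ?_⟩, ?_⟩
      · rw [h1, he.1.1] at h2; exact h2
      · rw [← h3]; exact he.2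
    · intro e he
      simp only [mem_filter, mem_univ, true_and] at he ⊢
      have hmem : e ∉ R' (en e) := by rw [he.1.1]; exact he.1.2
      have h1 := hθ (θ.symm ⟨e, hmem⟩)
      have h2 := (θ.symm ⟨e, hmem⟩).2
      have h3 := same (θ.symm ⟨e, hmem⟩)
      simp only [Equiv.apply_symm_apply] at h1 h3
      refine ⟨⟨h1.symm.trans he.1.1, ?_⟩, ?_⟩
      · rw [← h1, he.1.1] at h2; exact h2
      · rw [h3]; exact he.2
    · intro e he; simp
    · intro e he; simp

end Pool.Agent.Helper7
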