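import Mathlib

/-!
# Transport of supply to demand along a transitive relation (Hall)
-/

namespace Pool.Agent.Helper7

open Finset

theorem exists_transport {V : Type*} [Fintype V] [DecidableEq V] (R : V → V → Prop)
    (hrefl : ∀ v, R v v) (htrans : ∀ u v w, R u v → R v w → R u w) (sup dem : V → ℕ)
    (htot : ∑ v, sup v = ∑ v, dem v)
    (hall : ∀ W : Finset V, (∀ u ∈ W, ∀ v, R u v → v ∈ W) → ∑ v ∈ W, sup v ≤ ∑ v ∈ W, dem v) :
    ∃ φ : (Σ v, Fin (sup v)) ≃ (Σ v, Fin (dem v)), ∀ p, R p.1 (φ p).1 := by
  classical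
  let t : (Σ v, Fin (sup v)) → Finset (Σ v, Fin (dem v)) := fun p => univ.filter (fun q => R p.1 q.1)
  have hH : ∀ X : Finset (Σ v, Fin (sup v)), X.card ≤ (X.biUnion t).card := by
    intro X
    let W : Finset V := univ.filter (fun v => ∃ p ∈ X, R p.1 v)
    have hW : ∀ u ∈ W, ∀ v, R u v → v ∈ W := by
      intro u hu v huv
      simp only [W, mem_filter, mem_univ, true_and] at hu ⊢
      obtain ⟨p, hp, hpu⟩ := hu
      exact ⟨p, hp, htrans _ _ _ hpu huv⟩
    have h1 : X.card ≤ ∑ v ∈ W, sup v := by
      have : X ⊆ W.sigma (fun v => (univ : Finset (Fin (sup v)))) := by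
        intro p hp
        simp only [mem_sigma, mem_univ, and_true, W, mem_filter, true_and]
        exact ⟨p, hp, hrefl _⟩
      refine (Finset.card_le_card this).trans ?_
      rw [Finset.card_sigma]
      simp
    have h2 : ∑ v ∈ W, dem v ≤ (X.biUnion t).card := by
      have : W.sigma (fun v => (univ : Finset (Fin (dem v)))) ⊆ X.biUnion t := by
        intro q hq
        simp only [mem_sigma, mem_univ, and_true, W, mem_filter, true_and] at hq
        obtain ⟨p, hp, hpq⟩ := hq
        simp only [mem_biUnion, t, mem_filter, mem_univ, true_and]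
        exact ⟨p, hp, hpq⟩
      refine le_trans ?_ (Finset.card_le_card this)
      rw [Finset.card_sigma]
      simp
    exact h1.trans ((hall W hW).trans h2)
  obtain ⟨f, finj, hf⟩ := (Finset.all_card_le_biUnion_card_iff_exists_injective t).1 hH
  have hcard : Fintype.card (Σ v, Fin (sup v)) = Fintype.card (Σ v, Fin (dem v)) := by
    simp [Fintype.card_sigma, htot]
  have hbij : Function.Bijective f :=
    (Fintype.bijective_iff_injective_and_card f).2 ⟨finj, hcard⟩
  refine ⟨Equiv.ofBijective f hbij, ?_⟩
  intro p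
  have := hf p
  simp only [t, mem_filter, mem_univ, true_and] at this
  exact this

end Pool.Agent.Helper7
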