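import Pool.Agent.Helper7.Balanced
import Pool.Agent.Helper7.Transport

/-!
# Partitioning k-dijoins in digraphs with a super-source and a super-sink: a sufficient condition
-/

namespace Pool.Agent.Helper7.Dijoin

open Finset

variable {V A : Type*}

/-- `v` is reachable from `u` by a directed path. -/
def Reach (src dst : A → V) (u v : V) : Prop :=
  Relation.ReflTransGen (fun x y => ∃ a, src a = x ∧ dst a = y) u v

/-- a vertex without entering arcs -/
def IsSource (dst : A → V) (v : V) : Prop := ∀ a, dst a ≠ v

/-- a vertex without leaving arcs -/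
def IsSink (src : A → V) (v : V) : Prop := ∀ a, src a ≠ v

/-- `C` is the directed cut `δ⁺(U)` of a set `U` (not empty, not everything) that no arc enters. -/
def IsDicut (src dst : A → V) (C : Finset A) : Prop :=
  ∃ U : Set V, U.Nonempty ∧ U ≠ Set.univ ∧ (∀ a, dst a ∈ U → src a ∈ U) ∧
    ∀ a, a ∈ C ↔ src a ∈ U ∧ dst a ∉ U

/-- `F` meets every directed cut in at least `k` arcs. -/
def IsKDijoin [DecidableEq A] (src dst : A → V) (k : ℕ) (F : Finset A) : Prop :=
  ∀ C : Finset A, IsDicut src dst C → k ≤ (F ∩ C).card

/-- `F` is the disjoint union of `k` dijoins. -/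
def CanPartition [DecidableEq A] (src dst : A → V) (k : ℕ) (F : Finset A) : Prop :=
  ∃ P : Fin k → Finset A, (∀ i j, i ≠ j → Disjoint (P i) (P j)) ∧
    (∀ a, a ∈ F ↔ ∃ i, a ∈ P i) ∧ ∀ i, IsKDijoin src dst 1 (P i)

/-- a source from which every sink is reachable -/
def IsSuperSource (src dst : A → V) (s : V) : Prop :=
  IsSource dst s ∧ ∀ w, IsSink src w → Reach src dst s w

/-- a sink reachable from every source -/
def IsSuperSink (src dst : A → V) (t : V) : Prop :=
  IsSink src t ∧ ∀ u, IsSource dst u → Reach src dst u t

theorem Reach.mem_of_closed {src dst : A → V} {U : Set V} (hU : ∀ a, dst a ∈ U → src a ∈ U)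
    {u v : V} (h : Reach src dst u v) (hv : v ∈ U) : u ∈ U := by
  induction h with
  | refl => exact hv
  | tail _ hab ih =>
    obtain ⟨a, h1, h2⟩ := hab
    apply ih
    rw [← h1]
    exact hU a (h2 ▸ hv)

theorem Reach.eq_of_source {src dst : A → V} {u v : V} (h : Reach src dst u v)
    (hv : IsSource dst v) : u = v := by
  rcases Relation.ReflTransGen.cases_tail h with h1 | ⟨w, _, a, _, h2⟩
  · exact h1.symm
  · exact absurd h2 (hv a)

theorem Reach.eq_of_sink {src dst : A → V} {u v : V} (h : Reach src dst u v)
    (hu : IsSink src u) : u = v := by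
  rcases Relation.ReflTransGen.cases_head h with h1 | ⟨w, ⟨a, h2, _⟩, _⟩
  · exact h1
  · exact absurd h2 (hu a)

section Main

variable [Fintype V] [Fintype A] [DecidableEq V] [DecidableEq A]

theorem main (src dst : A → V) (s t : V) (k : ℕ) (F : Finset A)
    (hs : IsSuperSource src dst s) (ht : IsSuperSink src dst t)
    (h1 : ∀ v, ∃ u, IsSource dst u ∧ Reach src dst u v)
    (h2 : ∀ v, ∃ w, IsSink src w ∧ Reach src dst v w)
    (hF : IsKDijoin src dst (k + 1) F)
    (r : V → ℕ)
    (hr : ∀ u, IsSource dst u → u ≠ s → ∃ G : Finset A, G ⊆ F ∧ G.card = k + 1 ∧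
      ∀ a ∈ G, src a = u ∧ ∃ v, IsSource dst v ∧ r v < r u ∧ Reach src dst v (dst a))
    (r' : V → ℕ)
    (hr' : ∀ w, IsSink src w → w ≠ t → ∃ G : Finset A, G ⊆ F ∧ G.card = k + 1 ∧
      ∀ a ∈ G, dst a = w ∧ ∃ v, IsSink src v ∧ r' v < r' w ∧ Reach src dst (src a) v) :
    CanPartition src dst (k + 1) F := by
  classical
  by_cases hst : s = t
  · -- then there is only one vertex
    subst hst
    have hall : ∀ v, v = s := by
      intro v
      obtain ⟨w, hw, hvw⟩ := h2 v
      have e1 := (hs.2 w hw).eq_of_sink ht.1
      rw [← e1] at hvw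
      exact hvw.eq_of_source hs.1
    have nodicut : ∀ C, ¬ IsDicut src dst C := by
      rintro C ⟨U, ⟨u, hu⟩, hne, _, _⟩
      apply hne
      ext v
      rw [hall v, ← hall u]
      simp [hu]
    refine ⟨fun i => if i = 0 then F else ∅, ?_, ?_, ?_⟩
    · intro i j hij
      by_cases hi : i = 0
      · have hj : j ≠ 0 := fun h => hij (hi.trans h.symm)
        simp [hj]
      · simp [hi]
    · intro a
      constructor
      · intro ha; exact ⟨0, by simpa using ha⟩
      · rintro ⟨i, hi⟩
        by_cases h : i = 0
        · simpa [h] using hi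
        · simp [h] at hi
    · intro i C hC
      exact absurd hC (nodicut C)
  -- main case
  -- number of F-arcs leaving / entering a vertex
  let outF : V → ℕ := fun v => (F.filter (fun a => src a = v)).card
  let inF : V → ℕ := fun v => (F.filter (fun a => dst a = v)).card
  have sumOut : ∀ W : Finset V, ∑ v ∈ W, outF v = (F.filter (fun a => src a ∈ W)).card := by
    intro W
    have : F.filter (fun a => src a ∈ W) = W.biUnion (fun v => F.filter (fun a => src a = v)) := by
      ext a; simp [and_comm]
    rw [this, Finset.card_biUnion]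
    intro x _ y _ hxy
    rw [Function.onFun, Finset.disjoint_left]
    intro e he he'
    simp only [mem_filter] at he he'
    exact hxy (he.2.symm.trans he'.2)
  have sumIn : ∀ W : Finset V, ∑ v ∈ W, inF v = (F.filter (fun a => dst a ∈ W)).card := by
    intro W
    have : F.filter (fun a => dst a ∈ W) = W.biUnion (fun v => F.filter (fun a => dst a = v)) := by
      ext a; simp [and_comm]
    rw [this, Finset.card_biUnion]
    intro x _ y _ hxy
    rw [Function.onFun, Finset.disjoint_left]
    intro e he he'
    simp only [mem_filter] at he he'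
    exact hxy (he.2.symm.trans he'.2)
  let α : V → ℕ := fun v => outF v + (if v = t then k + 1 else 0)
  let β : V → ℕ := fun v => inF v + (if v = s then k + 1 else 0)
  let sup : V → ℕ := fun v => α v - β v
  let dem : V → ℕ := fun v => β v - α v
  have supdem : ∀ v, α v + dem v = β v + sup v := by
    intro v; simp only [sup, dem]; omega
  have sumα : ∀ W : Finset V, ∑ v ∈ W, α v
      = (F.filter (fun a => src a ∈ W)).card + (if t ∈ W then k + 1 else 0) := by
    intro W
    simp only [α, Finset.sum_add_distrib, sumOut, Finset.sum_ite_eq']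
  have sumβ : ∀ W : Finset V, ∑ v ∈ W, β v
      = (F.filter (fun a => dst a ∈ W)).card + (if s ∈ W then k + 1 else 0) := by
    intro W
    simp only [β, Finset.sum_add_distrib, sumIn, Finset.sum_ite_eq']
  have hallW : ∀ W : Finset V, (∀ u ∈ W, ∀ v, Reach src dst u v → v ∈ W) →
      ∑ v ∈ W, α v ≤ ∑ v ∈ W, β v := by
    intro W hW
    have hclosed : ∀ a, src a ∈ W → dst a ∈ W := fun a ha =>
      hW _ ha _ (Relation.ReflTransGen.single ⟨a, rfl, rfl⟩)
    rw [sumα, sumβ]
    have hsub : F.filter (fun a => src a ∈ W) ⊆ F.filter (fun a => dst a ∈ W) := by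
      intro a ha
      simp only [mem_filter] at ha ⊢
      exact ⟨ha.1, hclosed a ha.2⟩
    by_cases htW : t ∈ W
    · by_cases hsW : s ∈ W
      · simp only [htW, hsW, if_true]
        have := Finset.card_le_card hsub
        omega
      · simp only [htW, hsW, if_true, if_false, add_zero]
        -- a proper dicut
        have hcut : IsDicut src dst (univ.filter (fun a => src a ∉ W ∧ dst a ∈ W)) := by
          refine ⟨{v | v ∉ W}, ⟨s, hsW⟩, ?_, ?_, ?_⟩
          · intro h
            have : t ∈ ({v | v ∉ W} : Set V) := by rw [h]; trivial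
            exact this htW
          · intro a ha hsa
            exact ha (hclosed a hsa)
          · intro a
            simp
        have hk := hF _ hcut
        have hun : F.filter (fun a => src a ∈ W) ∪ (F ∩ univ.filter (fun a => src a ∉ W ∧ dst a ∈ W))
            ⊆ F.filter (fun a => dst a ∈ W) := by
          intro a ha
          simp only [mem_union, mem_filter, mem_inter, mem_univ, true_and] at ha ⊢
          rcases ha with ha | ha
          · exact ⟨ha.1, hclosed a ha.2⟩
          · exact ⟨ha.1, ha.2.2⟩
        have hdis : Disjoint (F.filter (fun a => src a ∈ W))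
            (F ∩ univ.filter (fun a => src a ∉ W ∧ dst a ∈ W)) := by
          rw [Finset.disjoint_left]
          intro a ha ha'
          simp only [mem_filter, mem_inter, mem_univ, true_and] at ha ha'
          exact ha'.2.1 ha.2
        have := Finset.card_le_card hun
        rw [Finset.card_union_of_disjoint hdis] at this
        omega
    · simp only [htW, if_false, add_zero]
      have := Finset.card_le_card hsub
      omega
  have hsupW : ∀ W : Finset V, (∀ u ∈ W, ∀ v, Reach src dst u v → v ∈ W) →
      ∑ v ∈ W, sup v ≤ ∑ v ∈ W, dem v := by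
    intro W hW
    have h3 := hallW W hW
    have h4 : ∑ v ∈ W, α v + ∑ v ∈ W, dem v = ∑ v ∈ W, β v + ∑ v ∈ W, sup v := by
      rw [← Finset.sum_add_distrib, ← Finset.sum_add_distrib]
      exact Finset.sum_congr rfl (fun v _ => supdem v)
    omega
  have htot : ∑ v, sup v = ∑ v, dem v := by
    have h4 : ∑ v, α v + ∑ v, dem v = ∑ v, β v + ∑ v, sup v := by
      rw [← Finset.sum_add_distrib, ← Finset.sum_add_distrib]
      exact Finset.sum_congr rfl (fun v _ => supdem v)
    have h5 := sumα univ
    have h6 := sumβ univ
    simp only [mem_univ, filter_true, if_true] at h5 h6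
    omega
  obtain ⟨φ, hφ⟩ := exists_transport (Reach src dst) (fun v => Relation.ReflTransGen.refl)
    (fun u v w h h' => h.trans h') sup dem htot hsupW
  -- elements
  let st : {a // a ∈ F} ⊕ (Σ v, Fin (sup v)) → V := fun x => match x with
    | Sum.inl a => src a.1
    | Sum.inr p => (φ p).1
  let en : {a // a ∈ F} ⊕ (Σ v, Fin (sup v)) → V := fun x => match x with
    | Sum.inl a => dst a.1
    | Sum.inr p => p.1
  have cst : ∀ v, (univ.filter (fun e => st e = v)).card = outF v + dem v := by
    intro v
    have e1 : univ.filter (fun e => st e = v)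
        = ((univ : Finset {a // a ∈ F}).filter (fun a => src a.1 = v)).disjSum
          (univ.filter (fun p => (φ p).1 = v)) := by
      ext x
      rcases x with a | p
      · simp [st]
      · simp [st]
    rw [e1, Finset.card_disjSum]
    congr 1
    · simp only [outF]
      rw [← Finset.card_image_of_injective _ (Subtype.val_injective (p := fun a => a ∈ F))]
      congr 1
      ext a
      simp [and_comm]
    · have e2 : (univ.filter (fun p => (φ p).1 = v)).card
          = ((univ : Finset (Σ v, Fin (dem v))).filter (fun q => q.1 = v)).card := by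
        refine Finset.card_bij' (fun p _ => φ p) (fun q _ => φ.symm q) ?_ ?_ ?_ ?_ <;> simp
      rw [e2]
      have e3 : (univ : Finset (Σ v, Fin (dem v))).filter (fun q => q.1 = v)
          = ({v} : Finset V).sigma (fun v => (univ : Finset (Fin (dem v)))) := by
        ext q; simp
      rw [e3, Finset.card_sigma]
      simp
  have cen : ∀ v, (univ.filter (fun e => en e = v)).card = inF v + sup v := by
    intro v
    have e1 : univ.filter (fun e => en e = v)
        = ((univ : Finset {a // a ∈ F}).filter (fun a => dst a.1 = v)).disjSum
          (univ.filter (fun p : (Σ v, Fin (sup v)) => p.1 = v)) := by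
      ext x
      rcases x with a | p
      · simp [en]
      · simp [en]
    rw [e1, Finset.card_disjSum]
    congr 1
    · simp only [inF]
      rw [← Finset.card_image_of_injective _ (Subtype.val_injective (p := fun a => a ∈ F))]
      congr 1
      ext a
      simp [and_comm]
    · have e3 : (univ : Finset (Σ v, Fin (sup v))).filter (fun q => q.1 = v)
          = ({v} : Finset V).sigma (fun v => (univ : Finset (Fin (sup v)))) := by
        ext q; simp
      rw [e3, Finset.card_sigma]
      simp
  -- counts agree
  have cbal : ∀ v, (univ.filter (fun e => st e = v)).card + (if v = t then k + 1 else 0)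
      = (univ.filter (fun e => en e = v)).card + (if v = s then k + 1 else 0) := by
    intro v
    rw [cst, cen]
    have := supdem v
    simp only [α, β] at this
    omega
  -- sources are not sinks etc.
  have src_not_sink : ∀ v, IsSource dst v → IsSink src v → False := by
    intro v hv hv'
    have e1 := (hs.2 v hv').eq_of_source hv
    have e2 := (ht.2 v hv).eq_of_sink hv'
    exact hst (e1.trans e2)
  have tnots : t ≠ s := fun h => hst h.symm
  -- the rainbow sets
  have key : ∀ v, ∃ R R' : Finset ({a // a ∈ F} ⊕ (Σ v, Fin (sup v))),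
      (∀ e ∈ R, st e = v) ∧ (∀ e ∈ R', en e = v) ∧ (R = ∅ ∨ R.card = k + 1) ∧
      (R' = ∅ ∨ R'.card = k + 1) ∧
      (univ.filter (fun e => st e = v ∧ e ∉ R)).card
        = (univ.filter (fun e => en e = v ∧ e ∉ R')).card ∧
      (R.card + (if v = t then k + 1 else 0) = R'.card + (if v = s then k + 1 else 0)) ∧
      (IsSource dst v → v ≠ s → R.card = k + 1 ∧ ∀ e ∈ R, ∃ a : {a // a ∈ F}, e = Sum.inl a ∧
        ∃ v', IsSource dst v' ∧ r v' < r v ∧ Reach src dst v' (dst a.1)) ∧
      (IsSink src v → v ≠ t → R'.card = k + 1 ∧ ∀ e ∈ R', ∃ a : {a // a ∈ F}, e = Sum.inl a ∧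
        ∃ v', IsSink src v' ∧ r' v' < r' v ∧ Reach src dst (src a.1) v') := by
    intro v
    have filt : ∀ R : Finset ({a // a ∈ F} ⊕ (Σ v, Fin (sup v))), (∀ e ∈ R, st e = v) →
        (univ.filter (fun e => st e = v ∧ e ∉ R)).card + R.card
          = (univ.filter (fun e => st e = v)).card := by
      intro R hR
      have : univ.filter (fun e => st e = v ∧ e ∉ R) = univ.filter (fun e => st e = v) \ R := by
        ext e; simp
      rw [this]
      exact Finset.card_sdiff_add_card_eq_card (by
        intro e he; simp [hR e he])
    have filt' : ∀ R : Finset ({a // a ∈ F} ⊕ (Σ v, Fin (sup v))), (∀ e ∈ R, en e = v) →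
        (univ.filter (fun e => en e = v ∧ e ∉ R)).card + R.card
          = (univ.filter (fun e => en e = v)).card := by
      intro R hR
      have : univ.filter (fun e => en e = v ∧ e ∉ R) = univ.filter (fun e => en e = v) \ R := by
        ext e; simp
      rw [this]
      exact Finset.card_sdiff_add_card_eq_card (by
        intro e he; simp [hR e he])
    by_cases hvs : v = s
    · subst hvs
      have hb := cbal v
      simp only [hst, if_false, add_zero, if_true] at hb
      obtain ⟨R, hR1, hR2⟩ := Finset.exists_subset_card_eq
        (s := univ.filter (fun e => st e = v)) (n := k + 1) (by omega)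
      have hR3 : ∀ e ∈ R, st e = v := by
        intro e he
        have := hR1 he
        simpa using this
      refine ⟨R, ∅, hR3, by simp, Or.inr hR2, Or.inl rfl, ?_, ?_, ?_, ?_⟩
      · have := filt R hR3
        have := filt' ∅ (by simp)
        simp only [card_empty] at this
        omega
      · simp only [hst, if_false, card_empty, if_true]; omega
      · intro _ h; exact absurd rfl h
      · intro h; exact (src_not_sink v hs.1 h).elim
    by_cases hvt : v = t
    · subst hvt
      have hb := cbal v
      simp only [hvs, if_false, add_zero, if_true] at hb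
      obtain ⟨R, hR1, hR2⟩ := Finset.exists_subset_card_eq
        (s := univ.filter (fun e => en e = v)) (n := k + 1) (by omega)
      have hR3 : ∀ e ∈ R, en e = v := by
        intro e he
        have := hR1 he
        simpa using this
      refine ⟨∅, R, by simp, hR3, Or.inl rfl, Or.inr hR2, ?_, ?_, ?_, ?_⟩
      · have := filt' R hR3
        have := filt ∅ (by simp)
        simp only [card_empty] at this
        omega
      · simp only [hvs, if_false, card_empty, if_true]; omega
      · intro h; exact (src_not_sink v h ht.1).elim
      · intro _ h; exact absurd rfl h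
    have hb := cbal v
    simp only [hvs, hvt, if_false, add_zero] at hb
    by_cases hsrc : IsSource dst v
    · obtain ⟨G, hG1, hG2, hG3⟩ := hr v hsrc hvs
      let R : Finset ({a // a ∈ F} ⊕ (Σ v, Fin (sup v))) :=
        G.attach.image (fun a => Sum.inl ⟨a.1, hG1 a.2⟩)
      have hRcard : R.card = k + 1 := by
        simp only [R]
        rw [Finset.card_image_of_injective, Finset.card_attach, hG2]
        intro a b hab
        simp only [Sum.inl.injEq, Subtype.mk.injEq] at hab
        exact Subtype.ext hab
      have hR3 : ∀ e ∈ R, st e = v := by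
        intro e he
        simp only [R, mem_image, mem_attach, true_and] at he
        obtain ⟨a, rfl⟩ := he
        exact (hG3 a.1 a.2).1
      have hf := filt R hR3
      obtain ⟨R', hR'1, hR'2⟩ := Finset.exists_subset_card_eq
        (s := univ.filter (fun e => en e = v)) (n := k + 1) (by omega)
      have hR'3 : ∀ e ∈ R', en e = v := by
        intro e he
        have := hR'1 he
        simpa using this
      have hf' := filt' R' hR'3
      refine ⟨R, R', hR3, hR'3, Or.inr hRcard, Or.inr hR'2, by omega, ?_, ?_, ?_⟩
      · simp only [hvs, hvt, if_false]; omega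
      · intro _ _
        refine ⟨hRcard, ?_⟩
        intro e he
        simp only [R, mem_image, mem_attach, true_and] at he
        obtain ⟨a, rfl⟩ := he
        exact ⟨⟨a.1, hG1 a.2⟩, rfl, (hG3 a.1 a.2).2⟩
      · intro h; exact (src_not_sink v hsrc h).elim
    by_cases hsnk : IsSink src v
    · obtain ⟨G, hG1, hG2, hG3⟩ := hr' v hsnk hvt
      let R' : Finset ({a // a ∈ F} ⊕ (Σ v, Fin (sup v))) :=
        G.attach.image (fun a => Sum.inl ⟨a.1, hG1 a.2⟩)
      have hRcard : R'.card = k + 1 := by
        simp only [R']
        rw [Finset.card_image_of_injective, Finset.card_attach, hG2]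
        intro a b hab
        simp only [Sum.inl.injEq, Subtype.mk.injEq] at hab
        exact Subtype.ext hab
      have hR3 : ∀ e ∈ R', en e = v := by
        intro e he
        simp only [R', mem_image, mem_attach, true_and] at he
        obtain ⟨a, rfl⟩ := he
        exact (hG3 a.1 a.2).1
      have hf := filt' R' hR3
      obtain ⟨R, hR'1, hR'2⟩ := Finset.exists_subset_card_eq
        (s := univ.filter (fun e => st e = v)) (n := k + 1) (by omega)
      have hR'3 : ∀ e ∈ R, st e = v := by
        intro e he
        have := hR'1 he
        simpa using this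
      have hf' := filt R hR'3
      refine ⟨R, R', hR'3, hR3, Or.inr hR'2, Or.inr hRcard, by omega, ?_, ?_, ?_⟩
      · simp only [hvs, hvt, if_false]; omega
      · intro h; exact (hsrc h).elim
      · intro _ _
        refine ⟨hRcard, ?_⟩
        intro e he
        simp only [R', mem_image, mem_attach, true_and] at he
        obtain ⟨a, rfl⟩ := he
        exact ⟨⟨a.1, hG1 a.2⟩, rfl, (hG3 a.1 a.2).2⟩
    · refine ⟨∅, ∅, by simp, by simp, Or.inl rfl, Or.inl rfl, ?_, ?_, ?_, ?_⟩
      · simpa using hb
      · simp [hvs, hvt]
      · intro h; exact (hsrc h).elim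
      · intro h; exact (hsnk h).elim
  choose R R' k1 k2 k3 k4 k5 k6 k7 k8 using key
  obtain ⟨c, c1, c2, c3, c4⟩ := exists_balanced st en R R' k k1 k2 k3 k4 k5
  -- each colour occurs once in a rainbow set
  have once : ∀ (S : Finset ({a // a ∈ F} ⊕ (Σ v, Fin (sup v)))), S.card = k + 1 →
      (∀ e ∈ S, ∀ e' ∈ S, c e = c e' → e = e') → ∀ i < k + 1,
      (S.filter (fun e => c e = i)).card = 1 := by
    intro S hS hinj i hi
    have himg : S.image c = Finset.range (k + 1) := by
      apply Finset.eq_of_subset_of_card_le
      · intro x hx
        simp only [mem_image] at hx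
        obtain ⟨e, _, rfl⟩ := hx
        simpa using c1 e
      · rw [Finset.card_image_of_injOn (fun e he e' he' h => hinj e he e' he' h), hS]
        simp
    have hmem : i ∈ S.image c := by rw [himg]; simpa using hi
    simp only [mem_image] at hmem
    obtain ⟨e, he, hei⟩ := hmem
    rw [Finset.card_eq_one]
    refine ⟨e, ?_⟩
    ext e'
    simp only [mem_filter, mem_singleton]
    constructor
    · rintro ⟨h3, h4⟩
      exact hinj e' h3 e he (h4.trans hei.symm)
    · rintro rfl
      exact ⟨he, hei⟩
  have cntR : ∀ v, ∀ i < k + 1, ((R v).filter (fun e => c e = i)).card * (k + 1) = (R v).card := by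
    intro v i hi
    rcases k3 v with h | h
    · simp [h]
    · rw [once _ h (c2 v) i hi, h]; simp
  have cntR' : ∀ v, ∀ i < k + 1, ((R' v).filter (fun e => c e = i)).card * (k + 1) = (R' v).card := by
    intro v i hi
    rcases k4 v with h | h
    · simp [h]
    · rw [once _ h (c3 v) i hi, h]; simp
  -- colour balance at each vertex
  have bal : ∀ v, ∀ i < k + 1, (univ.filter (fun e => st e = v ∧ c e = i)).card
      + (if v = t then 1 else 0)
      = (univ.filter (fun e => en e = v ∧ c e = i)).card + (if v = s then 1 else 0) := by
    intro v i hi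
    have e1 : (univ.filter (fun e => st e = v ∧ c e = i)).card
        = (univ.filter (fun e => (st e = v ∧ e ∉ R v) ∧ c e = i)).card
          + ((R v).filter (fun e => c e = i)).card := by
      rw [← Finset.card_union_of_disjoint]
      · congr 1
        ext e
        simp only [mem_filter, mem_univ, true_and, mem_union]
        constructor
        · rintro ⟨h3, h4⟩
          by_cases h5 : e ∈ R v
          · exact Or.inr ⟨h5, h4⟩
          · exact Or.inl ⟨⟨h3, h5⟩, h4⟩
        · rintro (⟨⟨h3, _⟩, h4⟩ | ⟨h3, h4⟩)
          · exact ⟨h3, h4⟩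
          · exact ⟨k1 v e h3, h4⟩
      · rw [Finset.disjoint_left]
        intro e he he'
        simp only [mem_filter, mem_univ, true_and] at he he'
        exact he.1.2 he'.1
    have e2 : (univ.filter (fun e => en e = v ∧ c e = i)).card
        = (univ.filter (fun e => (en e = v ∧ e ∉ R' v) ∧ c e = i)).card
          + ((R' v).filter (fun e => c e = i)).card := by
      rw [← Finset.card_union_of_disjoint]
      · congr 1
        ext e
        simp only [mem_filter, mem_univ, true_and, mem_union]
        constructor
        · rintro ⟨h3, h4⟩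
          by_cases h5 : e ∈ R' v
          · exact Or.inr ⟨h5, h4⟩
          · exact Or.inl ⟨⟨h3, h5⟩, h4⟩
        · rintro (⟨⟨h3, _⟩, h4⟩ | ⟨h3, h4⟩)
          · exact ⟨h3, h4⟩
          · exact ⟨k2 v e h3, h4⟩
      · rw [Finset.disjoint_left]
        intro e he he'
        simp only [mem_filter, mem_univ, true_and] at he he'
        exact he.1.2 he'.1
    have e3 := c4 v i
    have e4 := cntR v i hi
    have e5 := cntR' v i hi
    have e6 := k6 v
    rw [← e4, ← e5] at e6
    have e7 : ((R v).filter (fun e => c e = i)).card + (if v = t then 1 else 0)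
        = ((R' v).filter (fun e => c e = i)).card + (if v = s then 1 else 0) := by
      have hpos : 0 < k + 1 := Nat.succ_pos k
      apply Nat.eq_of_mul_eq_mul_right hpos
      rw [add_mul, add_mul]
      simpa [ite_mul] using e6
    omega
  -- the classes
  let P : Fin (k + 1) → Finset A := fun i =>
    univ.filter (fun a => ∃ h : a ∈ F, c (Sum.inl ⟨a, h⟩) = i.1)
  refine ⟨P, ?_, ?_, ?_⟩
  · intro i j hij
    rw [Finset.disjoint_left]
    intro a ha ha'
    simp only [P, mem_filter, mem_univ, true_and] at ha ha'
    obtain ⟨h3, h4⟩ := ha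
    obtain ⟨h5, h6⟩ := ha'
    exact hij (Fin.ext (h4.symm.trans h6))
  · intro a
    constructor
    · intro ha
      refine ⟨⟨c (Sum.inl ⟨a, ha⟩), c1 _⟩, ?_⟩
      simp only [P, mem_filter, mem_univ, true_and]
      exact ⟨ha, trivial⟩
    · rintro ⟨i, hi⟩
      simp only [P, mem_filter, mem_univ, true_and] at hi
      exact hi.1
  · intro i C hC
    obtain ⟨U, hU1, hU2, hU3, hU4⟩ := hC
    -- it suffices to find an arc of colour i leaving U
    suffices hsuff : ∃ a : {a // a ∈ F}, c (Sum.inl a) = i.1 ∧ src a.1 ∈ U ∧ dst a.1 ∉ U by
      obtain ⟨a, h3, h4⟩ := hsuff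
      rw [Nat.succ_le_iff, Finset.card_pos]
      refine ⟨a.1, ?_⟩
      simp only [mem_inter, P, mem_filter, mem_univ, true_and, hU4]
      exact ⟨⟨a.2, h3⟩, h4⟩
    by_cases hsU : s ∈ U
    · by_cases htU : t ∈ U
      · -- type III: look at the sinks outside U
        have hex : ∃ w, IsSink src w ∧ w ∉ U := by
          by_contra hcon
          push Not at hcon
          apply hU2
          ext v
          simp only [Set.mem_univ, iff_true]
          obtain ⟨w, hw, hvw⟩ := h2 v
          exact hvw.mem_of_closed hU3 (hcon w hw)
        obtain ⟨w, ⟨hw1, hw2⟩, hw3⟩ := WellFounded.has_min (measure r').wf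
          {w | IsSink src w ∧ w ∉ U} hex
        have hwt : w ≠ t := by rintro rfl; exact hw2 htU
        obtain ⟨h5, h6⟩ := k8 w hw1 hwt
        have h7 := once _ h5 (c3 w) i.1 i.2
        obtain ⟨e, he⟩ := Finset.card_eq_one.1 h7
        have he' : e ∈ (R' w).filter (fun e => c e = i.1) := by rw [he]; simp
        simp only [mem_filter] at he'
        obtain ⟨a, rfl, v', hv1, hv2, hv3⟩ := h6 e he'.1
        refine ⟨a, he'.2, ?_, ?_⟩
        · by_contra hcon
          apply hw3 v' ⟨hv1, ?_⟩ hv2
          intro hv'
          exact hcon (hv3.mem_of_closed hU3 hv')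
        · have : dst a.1 = w := k2 w _ he'.1
          rw [this]; exact hw2
      · -- type I: counting
        let W : Finset V := univ.filter (fun v => v ∈ U)
        have hsum : ∑ v ∈ W, ((univ.filter (fun e => st e = v ∧ c e = i.1)).card
              + (if v = t then 1 else 0))
            = ∑ v ∈ W, ((univ.filter (fun e => en e = v ∧ c e = i.1)).card
              + (if v = s then 1 else 0)) :=
          Finset.sum_congr rfl (fun v _ => bal v i.1 i.2)
        rw [Finset.sum_add_distrib, Finset.sum_add_distrib, Finset.sum_ite_eq',
          Finset.sum_ite_eq'] at hsum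
        have hsW : s ∈ W := by simp [W, hsU]
        have htW : t ∉ W := by simp [W, htU]
        simp only [hsW, htW, if_true, if_false, add_zero] at hsum
        have s1 : ∑ v ∈ W, (univ.filter (fun e => st e = v ∧ c e = i.1)).card
            = (univ.filter (fun e => st e ∈ U ∧ c e = i.1)).card := by
          rw [← Finset.card_biUnion]
          · congr 1
            ext e
            simp only [mem_biUnion, mem_filter, mem_univ, true_and, W]
            constructor
            · rintro ⟨v, hv, h3, h4⟩; exact ⟨h3 ▸ hv, h4⟩
            · rintro ⟨h3, h4⟩; exact ⟨_, h3, rfl, h4⟩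
          · intro x _ y _ hxy
            rw [Function.onFun, Finset.disjoint_left]
            intro e he he'
            simp only [mem_filter, mem_univ, true_and] at he he'
            exact hxy (he.1.symm.trans he'.1)
        have s2 : ∑ v ∈ W, (univ.filter (fun e => en e = v ∧ c e = i.1)).card
            = (univ.filter (fun e => en e ∈ U ∧ c e = i.1)).card := by
          rw [← Finset.card_biUnion]
          · congr 1
            ext e
            simp only [mem_biUnion, mem_filter, mem_univ, true_and, W]
            constructor
            · rintro ⟨v, hv, h3, h4⟩; exact ⟨h3 ▸ hv, h4⟩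
            · rintro ⟨h3, h4⟩; exact ⟨_, h3, rfl, h4⟩
          · intro x _ y _ hxy
            rw [Function.onFun, Finset.disjoint_left]
            intro e he he'
            simp only [mem_filter, mem_univ, true_and] at he he'
            exact hxy (he.1.symm.trans he'.1)
        rw [s1, s2] at hsum
        by_contra hcon
        push Not at hcon
        have hsub : univ.filter (fun e => st e ∈ U ∧ c e = i.1)
            ⊆ univ.filter (fun e => en e ∈ U ∧ c e = i.1) := by
          rintro (a | p) he
          · simp only [mem_filter, mem_univ, true_and, st, en] at he ⊢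
            refine ⟨?_, he.2⟩
            by_contra h3
            exact h3 (hcon a he.2 he.1)
          · simp only [mem_filter, mem_univ, true_and, st, en] at he ⊢
            exact ⟨(hφ p).mem_of_closed hU3 he.1, he.2⟩
        have := Finset.card_le_card hsub
        omega
    · -- type II: look at the sources in U
      have hex : ∃ u, IsSource dst u ∧ u ∈ U := by
        obtain ⟨v, hv⟩ := hU1
        obtain ⟨u, hu, huv⟩ := h1 v
        exact ⟨u, hu, huv.mem_of_closed hU3 hv⟩
      obtain ⟨u, ⟨hu1, hu2⟩, hu3⟩ := WellFounded.has_min (measure r).wf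
        {u | IsSource dst u ∧ u ∈ U} hex
      have hus : u ≠ s := by rintro rfl; exact hsU hu2
      obtain ⟨h5, h6⟩ := k7 u hu1 hus
      have h7 := once _ h5 (c2 u) i.1 i.2
      obtain ⟨e, he⟩ := Finset.card_eq_one.1 h7
      have he' : e ∈ (R u).filter (fun e => c e = i.1) := by rw [he]; simp
      simp only [mem_filter] at he'
      obtain ⟨a, rfl, v', hv1, hv2, hv3⟩ := h6 e he'.1
      refine ⟨a, he'.2, ?_, ?_⟩
      · have : src a.1 = u := k1 u _ he'.1
        rw [this]; exact hu2
      · intro hd
        exact hu3 v' ⟨hv1, hv3.mem_of_closed hU3 hd⟩ hv2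

end Main

end Pool.Agent.Helper7.Dijoin
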