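import Mathlib

/-!
# Edge colouring of regular bipartite multigraphs (König), by Hall's theorem

A bipartite multigraph is given by a type of edges `E` with end maps `a : E → N₁`, `b : E → N₂`.
-/

namespace Pool.Agent.Helper7

open Finset

variable {E N₁ N₂ : Type*} [Fintype E] [DecidableEq E] [Fintype N₁] [DecidableEq N₁]
  [Fintype N₂] [DecidableEq N₂]

/-- A perfect matching in a `(k+1)`-regular bipartite multigraph (edge set `S`). -/
theorem exists_matching (a : E → N₁) (b : E → N₂) (k : ℕ) (S : Finset E)
    (ha : ∀ x, (S.filter (fun e => a e = x)).card = k + 1)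
    (hb : ∀ y, (S.filter (fun e => b e = y)).card = k + 1) :
    ∃ g : N₁ → E, (∀ x, g x ∈ S) ∧ (∀ x, a (g x) = x) ∧ Function.Bijective (fun x => b (g x)) := by
  classical
  -- number of edges meeting a set of vertices
  have cardA : ∀ X : Finset N₁, (S.filter (fun e => a e ∈ X)).card = (k + 1) * X.card := by
    intro X
    have : S.filter (fun e => a e ∈ X) = X.biUnion (fun x => S.filter (fun e => a e = x)) := by
      ext e; simp [and_comm]
    rw [this, Finset.card_biUnion]
    · simp [ha, mul_comm]
    · intro x _ y _ hxy
      rw [Function.onFun, Finset.disjoint_left]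
      intro e he he'
      simp only [mem_filter] at he he'
      exact hxy (he.2.symm.trans he'.2)
  have cardB : ∀ Y : Finset N₂, (S.filter (fun e => b e ∈ Y)).card = (k + 1) * Y.card := by
    intro X
    have : S.filter (fun e => b e ∈ X) = X.biUnion (fun x => S.filter (fun e => b e = x)) := by
      ext e; simp [and_comm]
    rw [this, Finset.card_biUnion]
    · simp [hb, mul_comm]
    · intro x _ y _ hxy
      rw [Function.onFun, Finset.disjoint_left]
      intro e he he'
      simp only [mem_filter] at he he'
      exact hxy (he.2.symm.trans he'.2)
  let t : N₁ → Finset N₂ := fun x => (S.filter (fun e => a e = x)).image b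
  have hall : ∀ X : Finset N₁, X.card ≤ (X.biUnion t).card := by
    intro X
    have h1 : S.filter (fun e => a e ∈ X) ⊆ S.filter (fun e => b e ∈ X.biUnion t) := by
      intro e he
      simp only [mem_filter] at he ⊢
      refine ⟨he.1, ?_⟩
      simp only [mem_biUnion, t, mem_image, mem_filter]
      exact ⟨a e, he.2, e, ⟨he.1, rfl⟩, rfl⟩
    have h2 := Finset.card_le_card h1
    rw [cardA, cardB] at h2
    exact Nat.le_of_mul_le_mul_left h2 (Nat.succ_pos k)
  obtain ⟨f, finj, hf⟩ := (Finset.all_card_le_biUnion_card_iff_exists_injective t).1 hall
  have hg : ∀ x, ∃ e, e ∈ S ∧ a e = x ∧ b e = f x := by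
    intro x
    have := hf x
    simp only [t, mem_image, mem_filter] at this
    obtain ⟨e, ⟨h1, h2⟩, h3⟩ := this
    exact ⟨e, h1, h2, h3⟩
  choose g hgS hga hgb using hg
  refine ⟨g, hgS, hga, ?_⟩
  have hcard : Fintype.card N₁ = Fintype.card N₂ := by
    have h1 := cardA Finset.univ
    have h2 := cardB Finset.univ
    simp only [mem_univ, filter_true, card_univ] at h1 h2
    exact Nat.eq_of_mul_eq_mul_left (Nat.succ_pos k) (h1.symm.trans h2)
  have hinj : Function.Injective (fun x => b (g x)) := by
    intro x y hxy
    simp only [hgb] at hxy
    exact finj hxy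
  exact (Fintype.bijective_iff_injective_and_card _).2 ⟨hinj, hcard⟩

/-- **König's edge colouring theorem** for regular bipartite multigraphs: a `k`-regular bipartite
multigraph has an edge colouring with `k` colours in which the edges at every vertex have
different colours. -/
theorem koenig (a : E → N₁) (b : E → N₂) (k : ℕ) (S : Finset E)
    (ha : ∀ x, (S.filter (fun e => a e = x)).card = k)
    (hb : ∀ y, (S.filter (fun e => b e = y)).card = k) :
    ∃ c : E → ℕ, (∀ e ∈ S, c e < k) ∧
      (∀ e ∈ S, ∀ e' ∈ S, a e = a e' → c e = c e' → e = e') ∧
      (∀ e ∈ S, ∀ e' ∈ S, b e = b e' → c e = c e' → e = e') := by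
  classical
  induction k generalizing S with
  | zero =>
    have hS : S = ∅ := by
      rw [Finset.eq_empty_iff_forall_notMem]
      intro e he
      have := ha (a e)
      rw [Finset.card_eq_zero] at this
      have h : e ∈ S.filter (fun e' => a e' = a e) := by simp [he]
      rw [this] at h
      simp at h
    subst hS
    exact ⟨fun _ => 0, by simp, by simp, by simp⟩
  | succ k ih =>
    obtain ⟨g, hgS, hga, hgb⟩ := exists_matching a b k S ha hb
    have gimg : ∀ e, e ∈ Finset.univ.image g ↔ g (a e) = e := by
      intro e
      constructor
      · intro h
        simp only [mem_image, mem_univ, true_and] at h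
        obtain ⟨x, rfl⟩ := h
        rw [hga]
      · intro h
        rw [← h]
        exact Finset.mem_image_of_mem g (mem_univ _)
    let S' : Finset E := S \ Finset.univ.image g
    have ha' : ∀ x, (S'.filter (fun e => a e = x)).card = k := by
      intro x
      have h1 : S'.filter (fun e => a e = x) = (S.filter (fun e => a e = x)).erase (g x) := by
        ext e
        simp only [S', mem_filter, mem_sdiff, gimg, mem_erase]
        constructor
        · rintro ⟨⟨h1, h2⟩, h3⟩
          refine ⟨?_, h1, h3⟩
          rintro rfl
          exact h2 (by rw [hga])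
        · rintro ⟨h1, h2, h3⟩
          refine ⟨⟨h2, ?_⟩, h3⟩
          intro h4
          rw [h3] at h4
          exact h1 h4.symm
      rw [h1, Finset.card_erase_of_mem (by simp [hgS, hga]), ha]
      rfl
    have hb' : ∀ y, (S'.filter (fun e => b e = y)).card = k := by
      intro y
      obtain ⟨x, hx⟩ := hgb.2 y
      simp only at hx
      have h1 : S'.filter (fun e => b e = y) = (S.filter (fun e => b e = y)).erase (g x) := by
        ext e
        simp only [S', mem_filter, mem_sdiff, gimg, mem_erase]
        constructor
        · rintro ⟨⟨h1, h2⟩, h3⟩
          refine ⟨?_, h1, h3⟩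
          rintro rfl
          exact h2 (by rw [hga])
        · rintro ⟨h1, h2, h3⟩
          refine ⟨⟨h2, ?_⟩, h3⟩
          intro h4
          have : a e = x := by
            apply hgb.1
            simp only
            rw [h4, h3, hx]
          rw [this] at h4
          exact h1 h4.symm
      rw [h1, Finset.card_erase_of_mem (by simp [hgS, hx]), hb]
      rfl
    obtain ⟨c, hc1, hc2, hc3⟩ := ih S' ha' hb'
    refine ⟨fun e => if g (a e) = e then k else c e, ?_, ?_, ?_⟩
    · intro e he
      by_cases h : g (a e) = e
      · simp [h]
      · simp only [h, if_false]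
        have : e ∈ S' := by simp [S', he, gimg, h]
        exact Nat.lt_succ_of_lt (hc1 e this)
    · intro e he e' he' hab hcc
      by_cases h : g (a e) = e
      · by_cases h' : g (a e') = e'
        · rw [← h, ← h', hab]
        · simp only [h, h', if_true, if_false] at hcc
          have : e' ∈ S' := by simp [S', he', gimg, h']
          exact absurd hcc (ne_of_gt (hc1 e' this))
      · have hS : e ∈ S' := by simp [S', he, gimg, h]
        by_cases h' : g (a e') = e'
        · simp only [h, h', if_true, if_false] at hcc
          exact absurd hcc (ne_of_lt (hc1 e hS))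
        · simp only [h, h', if_false] at hcc
          have hS' : e' ∈ S' := by simp [S', he', gimg, h']
          exact hc2 e hS e' hS' hab hcc
    · intro e he e' he' hab hcc
      by_cases h : g (a e) = e
      · by_cases h' : g (a e') = e'
        · have : a e = a e' := by
            apply hgb.1
            simp only
            rw [h, h', hab]
          rw [← h, ← h', this]
        · simp only [h, h', if_true, if_false] at hcc
          have : e' ∈ S' := by simp [S', he', gimg, h']
          exact absurd hcc (ne_of_gt (hc1 e' this))
      · have hS : e ∈ S' := by simp [S', he, gimg, h]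
        by_cases h' : g (a e') = e'
        · simp only [h, h', if_true, if_false] at hcc
          exact absurd hcc (ne_of_lt (hc1 e hS))
        · simp only [h, h', if_false] at hcc
          have hS' : e' ∈ S' := by simp [S', he', gimg, h']
          exact hc3 e hS e' hS' hab hcc

end Pool.Agent.Helper7
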